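import Pool.Agent.Lib.MP_b5021c_nt.IfaceF

/-!
# Board b5, row F1C
-/

namespace Pool.Agent.B5.H42

theorem f1c (hv : VcoS) : F1S := by
  intro O _ _ _ _ P L _ _ _ _ _ phi D S eta hinj hbin hS hS0 a ha
  have h0 : vco eta S D a = 0 := by
    by_contra hne
    exact ha ⟨1, one_ne_zero, by rw [one_smul]; exact Submodule.subset_span (Or.inr hne)⟩
  obtain ⟨_, _, h3, h4, _⟩ := hv O P L phi D S eta hinj hbin hS hS0
  refine ⟨fun h1 h2 => ?_, fun h => by rw [← h3 a h, h0]⟩
  by_cases hb : Bin phi a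
  · rw [← h4 a hb h1 h2, h0]
  · by_contra hne
    exact hb (hbin a hne)

end Pool.Agent.B5.H42
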