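import Pool.Agent.Lib.MP_b5021c_nt.IfaceG

/-!
# Board b5, row G3C: the number of small non-pure factors
-/

namespace Pool.Agent.B5.H42

theorem M_prod (hM : MmulS) (O : Type) [CommRing O] [IsDomain O] [IsPrincipalIdealRing O] [Coef O]
    {ι : Type} (s : Finset ι) (g : ι → RO O) (hg : ∀ i ∈ s, g i ≠ 0) :
    M (∏ i ∈ s, g i) = ∏ i ∈ s, M (g i) := by
  classical
  induction s using Finset.induction_on with
  | empty =>
    rw [Finset.prod_empty, Finset.prod_empty]
    exact (hM O).2.2 1 isUnit_one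
  | insert a s ha ih =>
    have h1 : ∏ i ∈ s, g i ≠ 0 :=
      Finset.prod_ne_zero_iff.2 fun i hi => hg i (Finset.mem_insert_of_mem hi)
    rw [Finset.prod_insert ha, Finset.prod_insert ha,
      (hM O).1 _ _ (hg a (Finset.mem_insert_self a s)) h1,
      ih fun i hi => hg i (Finset.mem_insert_of_mem hi)]

theorem g3c (hI : I3S) (hA : A2S) (hM : MmulS) : G3S := by
  intro O _ _ _ _ P L _ _ _ _ _ phi D S i0 eta h c n G fd
  obtain ⟨q, hq, hle⟩ := hI O P L phi D S i0 eta h c n G fd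
  have hD : D.coeff 0 ≠ 0 := fd.cc.dd.st.1
  have hG : ∀ i ∈ big G, (G i).coeff 0 ≠ 0 := fun i _ => (fd.st i).1
  have hP : ∏ i ∈ big G, (G i).coeff 0 ≠ 0 := Finset.prod_ne_zero_iff.2 hG
  have h1 := hA O {l // l ∈ snp phi S i0 G}
    (fun l => q l.1 * ∏ i ∈ big G, (G i).coeff 0) (D.coeff 0) 2 hD
    (fun l => mul_ne_zero (hq l.1) hP) two_pos (fun z => by
      refine le_trans (le_of_eq ?_) (hle z)
      rw [← Finset.sum_coe_sort (snp phi S i0 G)
        (fun l => ‖evR z (q l)‖ * ∏ i ∈ big G, ‖evR z ((G i).coeff 0)‖)]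
      refine Finset.sum_congr rfl fun l _ => ?_
      rw [map_mul, norm_mul, map_prod, norm_prod])
  refine le_trans ?_ h1
  have h2 : ∀ l : {l // l ∈ snp phi S i0 G}, ∏ i ∈ big G, M ((G i).coeff 0) ≤
      M (q l.1 * ∏ i ∈ big G, (G i).coeff 0) := by
    intro l
    rw [(hM O).1 _ _ (hq l.1) hP, M_prod hM O (big G) (fun i => (G i).coeff 0) hG]
    have h3 : 0 ≤ ∏ i ∈ big G, M ((G i).coeff 0) :=
      Finset.prod_nonneg fun i _ => le_trans zero_le_one ((hM O).2.1 _)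
    exact le_mul_of_one_le_left h3 ((hM O).2.1 _)
  calc ((snp phi S i0 G).card : ℝ) * ∏ i ∈ big G, M ((G i).coeff 0)
      = ∑ _l : {l // l ∈ snp phi S i0 G}, ∏ i ∈ big G, M ((G i).coeff 0) := by
        rw [Finset.sum_const, Finset.card_univ, Fintype.card_coe, nsmul_eq_mul]
    _ ≤ _ := Finset.sum_le_sum fun l _ => h2 l

end Pool.Agent.B5.H42
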