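import Pool.Agent.Lib.MP_b5021c_nt.IfaceL2

/-!
# Board b5, row LMN: Lemma N (mutually moved rays have drop zero at every other load)
-/

namespace Pool.Agent.B5.H42

section

variable {O : Type} [CommRing O] {L : Type} [AddCommGroup L]

theorem self_mem_US (eta : (RO O)ˣ) (S : L) (D : AO O L) : S ∈ US eta S D :=
  ⟨1, one_ne_zero, by rw [one_smul]; exact Submodule.subset_span (Or.inl rfl)⟩

theorem mem_US {eta : (RO O)ˣ} {S : L} {D : AO O L} {a : L} (h : vco eta S D a ≠ 0) :
    a ∈ US eta S D :=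
  ⟨1, one_ne_zero, by rw [one_smul]; exact Submodule.subset_span (Or.inr h)⟩

variable {P : Type} {phi : L →+ (P → ℤ)}

/-- The three positions of a 0/1 vector with respect to another one. -/
theorem trisect {a S : L} (ha : Bin phi a) (hS : Bin phi S) :
    (∀ i, phi a i = 0 ∨ phi S i = 0) ∨
    (Bin phi (a - S) ∧ ∀ i, phi (a - S) i = 0 ∨ phi S i = 0) ∨
    ((∃ i, phi a i = 1 ∧ phi S i = 1) ∧ (∃ i, phi a i = 0 ∧ phi S i = 1)) := by
  by_cases h1 : ∃ i, phi a i = 1 ∧ phi S i = 1
  · by_cases h2 : ∃ i, phi a i = 0 ∧ phi S i = 1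
    · exact Or.inr (Or.inr ⟨h1, h2⟩)
    · right; left
      have h3 : ∀ i, (phi (a - S) i = 0 ∨ phi (a - S) i = 1) ∧ (phi (a - S) i = 0 ∨ phi S i = 0) := by
        intro i
        have h4 : phi (a - S) i = phi a i - phi S i := by rw [map_sub]; rfl
        have h5 : ¬ (phi a i = 0 ∧ phi S i = 1) := fun h => h2 ⟨i, h⟩
        rcases ha i with h6 | h6 <;> rcases hS i with h7 | h7
        · rw [h4, h6, h7]; norm_num
        · exact absurd ⟨h6, h7⟩ h5
        · rw [h4, h6, h7]; norm_num
        · rw [h4, h6, h7]; norm_num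
      exact ⟨fun i => (h3 i).1, fun i => (h3 i).2⟩
  · left
    intro i
    rcases ha i with h6 | h6
    · exact Or.inl h6
    · rcases hS i with h7 | h7
      · exact Or.inr h7
      · exact absurd ⟨i, h6, h7⟩ h1

end

theorem lmn (hF1 : F1S) (hF2 : F2S) (hV : VcoS) : LMNS := by
  intro O _ _ _ _ P L _ _ _ _ _ phi D S S' e e' e'' hinj hbin hR hR' h1 h2 hne
  have hS : Bin phi S := hbin S hR.1
  have hS' : Bin phi S' := hbin S' hR'.1
  have hdis := hF2 O P L phi D S S' e' hinj hbin hR hR' h2
  have hdis' : ∀ i, phi S' i = 0 ∨ phi S i = 0 := fun i => (hdis i).symm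
  obtain ⟨-, -, v3, v4, -⟩ := hV O P L phi D S e'' hinj hbin hS hR.2.1
  obtain ⟨-, -, w3, w4, -⟩ := hV O P L phi D S e hinj hbin hS hR.2.1
  obtain ⟨-, -, x3, x4, -⟩ := hV O P L phi D S' e' hinj hbin hS' hR'.2.1
  have hun : ∀ (u : (RO O)ˣ), (u : RO O) ≠ 0 := fun u => u.ne_zero
  have hsub : (e'' : RO O) - e ≠ 0 := by
    intro h
    exact hne (Units.ext (sub_eq_zero.1 h))
  -- `S'` is in `U`
  have hS'U : S' ∈ US e'' S D := by
    by_contra hc
    have k1 := (hF1 O P L phi D S e hinj hbin hS hR.2.1 S' h1).2 hdis'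
    have k2 := (hF1 O P L phi D S e'' hinj hbin hS hR.2.1 S' hc).2 hdis'
    have k3 : ((e'' : RO O) - e) * D.coeff (S' + S) = 0 := by linear_combination k2 - k1
    have k4 : D.coeff (S' + S) = 0 := (mul_eq_zero.1 k3).resolve_left hsub
    rw [k4, mul_zero, add_zero] at k1
    exact hR'.1 k1
  have hSU : S ∈ US e'' S D := self_mem_US e'' S D
  intro a ha
  by_contra hc
  -- the representative off `S`
  obtain ⟨a0, b0, off0, nU0, na0⟩ : ∃ a0 : L, Bin phi a0 ∧ (∀ i, phi a0 i = 0 ∨ phi S i = 0) ∧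
      a0 ∉ US e'' S D ∧ (D.coeff a0 ≠ 0 ∨ D.coeff (a0 + S) ≠ 0) := by
    rcases trisect (hbin a ha) hS with h | h | h
    · exact ⟨a, hbin a ha, h, hc, Or.inl ha⟩
    · refine ⟨a - S, h.1, h.2, fun h' => hc ?_, Or.inr ?_⟩
      · have := Submodule.add_mem _ h' hSU
        rwa [sub_add_cancel] at this
      · rw [sub_add_cancel]; exact ha
    · exact absurd ((hF1 O P L phi D S e'' hinj hbin hS hR.2.1 a hc).1 h.1 h.2) ha
  have r0 := (hF1 O P L phi D S e'' hinj hbin hS hR.2.1 a0 nU0).2 off0
  have n0 : D.coeff a0 ≠ 0 := by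
    rcases na0 with h | h
    · exact h
    · intro h'
      rw [h', zero_add] at r0
      exact (mul_ne_zero (hun e'') h) r0
  have n0' : D.coeff (a0 + S) ≠ 0 := by
    intro h'
    rw [h', mul_zero, add_zero] at r0
    exact n0 r0
  have hphi : ∀ (x y : L) (i : P), phi (x + y) i = phi x i + phi y i := by
    intro x y i; rw [map_add]; rfl
  -- the representative off `S` and `S'`
  obtain ⟨b, bb, offS, offS', nUb, nb⟩ : ∃ b : L, Bin phi b ∧ (∀ i, phi b i = 0 ∨ phi S i = 0) ∧
      (∀ i, phi b i = 0 ∨ phi S' i = 0) ∧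
      b ∉ US e'' S D ∧ (D.coeff b ≠ 0 ∨ D.coeff (b + S') ≠ 0) := by
    rcases trisect b0 hS' with h | h | ⟨⟨i, hi, hi'⟩, ⟨j, hj, hj'⟩⟩
    · exact ⟨a0, b0, off0, h, nU0, Or.inl n0⟩
    · refine ⟨a0 - S', h.1, fun i => ?_, h.2, fun h' => nU0 ?_, Or.inr ?_⟩
      · rcases off0 i with h3 | h3
        · left
          have h4 : phi (a0 - S') i = phi a0 i - phi S' i := by rw [map_sub]; rfl
          rcases h.1 i with h5 | h5
          · exact h5
          · rcases hS' i with h6 | h6
            · rw [h4, h3, h6]; rfl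
            · rw [h4, h3, h6] at h5; norm_num at h5
        · exact Or.inr h3
      · have := Submodule.add_mem _ h' hS'U
        rwa [sub_add_cancel] at this
      · rw [sub_add_cancel]; exact n0
    · exfalso
      have m1 : a0 ∈ US e' S' D := by
        refine mem_US ?_
        rw [x4 a0 b0 ⟨i, hi, hi'⟩ ⟨j, hj, hj'⟩]; exact n0
      have z : ∀ k, phi S' k = 1 → phi (a0 + S) k = phi a0 k := by
        intro k hk
        rw [hphi]
        rcases hdis k with h | h
        · rw [h, add_zero]
        · rw [h] at hk; norm_num at hk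
      have m2 : a0 + S ∈ US e' S' D := by
        refine mem_US ?_
        rw [x4 (a0 + S) (hbin _ n0') ⟨i, by rw [z i hi', hi], hi'⟩ ⟨j, by rw [z j hj', hj], hj'⟩]
        exact n0'
      have m3 := Submodule.sub_mem _ m2 m1
      rw [add_sub_cancel_left] at m3
      exact h2 m3
  -- the four coefficients
  have offS2 : ∀ i, phi (b + S') i = 0 ∨ phi S i = 0 := by
    intro i
    rcases hdis i with h | h
    · exact Or.inr h
    · rcases offS i with h3 | h3
      · left; rw [hphi, h3, h]; rfl
      · exact Or.inr h3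
  have offS'2 : ∀ i, phi (b + S) i = 0 ∨ phi S' i = 0 := by
    intro i
    rcases hdis i with h | h
    · rcases offS' i with h3 | h3
      · left; rw [hphi, h3, h]; rfl
      · exact Or.inr h3
    · exact Or.inr h
  have nUb' : b + S' ∉ US e'' S D := by
    intro h
    have := Submodule.sub_mem _ h hS'U
    rw [add_sub_cancel_right] at this
    exact nUb this
  have r1 := (hF1 O P L phi D S e'' hinj hbin hS hR.2.1 b nUb).2 offS
  have r2 := (hF1 O P L phi D S e'' hinj hbin hS hR.2.1 (b + S') nUb').2 offS2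
  have hcomm : b + S + S' = b + S' + S := by abel
  have y1 := x3 b offS'
  have y2 := x3 (b + S) offS'2
  rw [hcomm] at y2
  have q0 : D.coeff b + (e' : RO O) * D.coeff (b + S') = 0 := by
    by_contra hn
    have m1 : b ∈ US e' S' D := mem_US (by rw [y1]; exact hn)
    have m2 : b + S ∈ US e' S' D := by
      refine mem_US ?_
      rw [y2]
      intro h0
      apply hn
      have : (e'' : RO O) * (D.coeff (b + S) + (e' : RO O) * D.coeff (b + S' + S)) = 0 := by
        rw [h0, mul_zero]
      linear_combination r1 + (e' : RO O) * r2 - this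
    have m3 := Submodule.sub_mem _ m2 m1
    rw [add_sub_cancel_left] at m3
    exact h2 m3
  have nb1 : D.coeff b ≠ 0 := by
    rcases nb with h | h
    · exact h
    · intro h'
      rw [h', zero_add] at q0
      exact (mul_ne_zero (hun e') h) q0
  have nb2 : D.coeff (b + S') ≠ 0 := by
    intro h'
    rw [h', mul_zero, add_zero] at q0
    exact nb1 q0
  have m1 : b ∈ US e S D := by
    refine mem_US ?_
    rw [w3 b offS]
    intro h0
    have : ((e'' : RO O) - e) * D.coeff b = 0 := by
      linear_combination (e'' : RO O) * h0 - (e : RO O) * r1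
    exact (mul_ne_zero hsub nb1) this
  have m2 : b + S' ∈ US e S D := by
    refine mem_US ?_
    rw [w3 (b + S') offS2]
    intro h0
    have : ((e'' : RO O) - e) * D.coeff (b + S') = 0 := by
      linear_combination (e'' : RO O) * h0 - (e : RO O) * r2
    exact (mul_ne_zero hsub nb2) this
  have m3 := Submodule.sub_mem _ m2 m1
  rw [add_sub_cancel_left] at m3
  exact h1 m3

end Pool.Agent.B5.H42
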