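import Pool.Agent.Lib.MP_b5021c_nt.IfaceB

/-!
# Board b5, row SLE: values and coefficients of slices
-/

namespace Pool.Agent.B5.H42

open Polynomial

variable {L : Type} [AddCommGroup L]

theorem eval_sl (u : AddChar L Circle) (lam : L →+ ℤ) (p : CA L) (s : ℂ) :
    (sl u lam p).eval s = p.coeff.sum fun a c => c * (u a : ℂ) * s ^ (lam a).toNat := by
  unfold sl Finsupp.sum
  rw [Polynomial.eval_finsetSum]
  refine Finset.sum_congr rfl fun a _ => ?_
  rw [Polynomial.eval_monomial]

theorem coeff_sl (u : AddChar L Circle) (lam : L →+ ℤ) (p : CA L) (n : ℕ) :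
    (sl u lam p).coeff n =
      p.coeff.sum fun a c => if (lam a).toNat = n then c * (u a : ℂ) else 0 := by
  unfold sl Finsupp.sum
  rw [Polynomial.finsetSum_coeff]
  refine Finset.sum_congr rfl fun a _ => ?_
  rw [Polynomial.coeff_monomial]

theorem twist_coe (u : AddChar L Circle) (lam : L →+ ℤ) (s : Circle) (a : L) :
    ((twist u lam s a : Circle) : ℂ) = (u a : ℂ) * (s : ℂ) ^ (lam a) := by
  change ((u a * s ^ (lam a) : Circle) : ℂ) = _
  rw [Circle.coe_mul, Circle.coe_zpow]

theorem sle : SlEvalS := by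
  intro L _ _ _ u lam p hp
  refine ⟨fun s => ?_, fun n => ?_, fun s => ?_⟩
  · rw [eval_sl, evC_apply]
    refine Finset.sum_congr rfl fun a ha => ?_
    have h0 : 0 ≤ lam a := hp a ha
    have h1 : (s : ℂ) ^ (lam a) = (s : ℂ) ^ (lam a).toNat := by
      conv_lhs => rw [← Int.toNat_of_nonneg h0]
      rw [zpow_natCast]
    simp only []
    rw [twist_coe, h1, mul_assoc]
  · rw [coeff_sl, evC_apply]
    unfold gpart
    rw [AddMonoidAlgebra.coeff_ofCoeff, Finsupp.sum_filter_index]
    unfold Finsupp.sum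
    rw [Finsupp.support_filter, Finset.sum_filter]
    refine Finset.sum_congr rfl fun a ha => ?_
    have h0 : 0 ≤ lam a := hp a ha
    have h1 : (lam a).toNat = n ↔ lam a = (n : ℤ) := by omega
    simp only [h1]
  · rw [eval_sl]
    unfold mev
    refine Finset.sum_congr rfl fun a _ => ?_
    simp

end Pool.Agent.B5.H42
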