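import Pool.Agent.Lib.MP_b5021c_nt.IfaceS4a

/-!
# Row U_BS2: best and second best unit of an Eisenstein integer, integrality
-/

set_option autoImplicit false

namespace Pool.Agent.B5.H42

open Pool.Agent.MP_b5021c_nt Pool.Agent.MP_b5021c_nt.Eis

theorem u_bs2 : Bs2S := by
  intro t ht
  obtain ⟨k, -, hk⟩ := Finset.exists_max_image (Finset.range 6)
    (fun k => (emb (g6 ^ k) * emb t).re) ⟨0, by simp⟩
  have hk' : ∀ n : ℕ, (emb (g6 ^ n) * emb t).re ≤ (emb (g6 ^ k) * emb t).re := by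
    intro n
    have h1 : g6 ^ n = g6 ^ (n % 6) := by
      conv_lhs => rw [← Nat.div_add_mod n 6, pow_add, pow_mul, g6_pow, one_pow, one_mul]
    rw [h1]
    exact hk _ (Finset.mem_range.2 (Nat.mod_lt _ (by norm_num)))
  obtain ⟨s, hs'⟩ : ∃ s : Eis, s = g6 ^ k * t := ⟨_, rfl⟩
  obtain ⟨y, hy⟩ : ∃ y : ℂ, y = emb s := ⟨_, rfl⟩
  have hyt : emb (g6 ^ k) * emb t = y := by rw [hy, hs', map_mul]
  have hu : IsUnit (g6 ^ k) := g6_unit.pow k
  have hs0 : s ≠ 0 := by rw [hs']; exact mul_ne_zero hu.ne_zero ht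
  have hny : ‖emb t‖ = ‖y‖ := by rw [← hyt, norm_mul, norm_emb_unit hu, one_mul]
  have e1 : emb (g6 ^ (k + 1)) * emb t = emb g6 * y := by
    rw [← hyt, pow_succ, map_mul]; ring
  have e2 : emb (g6 ^ (k + 5)) * emb t = emb (g6 ^ 5) * y := by
    rw [← hyt, pow_add, map_mul]; ring
  have h1 := hk' (k + 1)
  have h2 := hk' (k + 5)
  rw [e1, g6_re, hyt] at h1
  rw [e2, g6_inv_re, hyt] at h2
  have hsq := sqrt3_sq
  have hre : y.re = s.re - s.im / 2 := by rw [hy, emb_re]
  have him : y.im = s.im * (√3 / 2) := by rw [hy, emb_im]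
  have h3' : √3 / 2 * ((s.im : ℝ) * (√3 / 2)) = 3 / 4 * s.im := by
    linear_combination ((s.im : ℝ) / 4) * hsq
  have hab1 : (0 : ℝ) ≤ s.re + s.im := by
    rw [hre, him, h3'] at h1
    linarith
  have hab2 : (0 : ℝ) ≤ s.re - 2 * s.im := by
    rw [hre, him, h3'] at h2
    linarith
  have hab1' : 0 ≤ s.re + s.im := by exact_mod_cast hab1
  have hab2' : 0 ≤ s.re - 2 * s.im := by exact_mod_cast hab2
  have hn : ‖y‖ ^ 2 = (s.re : ℝ) ^ 2 - s.re * s.im + s.im ^ 2 := by
    rw [hy, normSq_emb, norm_eq]; push_cast; ring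
  have hbest : √3 * ‖y‖ ≤ 2 * y.re := by
    have hre0 : 0 ≤ 2 * y.re := by rw [hre]; linarith
    have h3 : (√3 * ‖y‖) ^ 2 ≤ (2 * y.re) ^ 2 := by
      have : (√3 * ‖y‖) ^ 2 = 3 * ‖y‖ ^ 2 := by
        rw [mul_pow, Real.sq_sqrt (by norm_num)]
      rw [this, hn, hre]
      nlinarith
    exact (sq_le_sq₀ (by positivity) hre0).1 h3
  have hg : (emb g6).re = 1 / 2 := by
    rw [emb_re]; simp only [g6]; norm_num
  have hg5 : (emb (g6 ^ 5)).re = 1 / 2 := by
    have h : g6 ^ 5 = ⟨0, -1⟩ := by decide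
    rw [h, emb_re]; norm_num
  have hn0 := _root_.norm_nonneg y
  have hcoord : s.im = 0 → 1 ≤ s.re := by
    intro h
    by_contra hc
    apply hs0
    have h0 : s.re = 0 := by omega
    ext
    · simpa using h0
    · simpa using h
  rcases le_total 0 s.im with hb | hb
  · refine ⟨g6 ^ k, g6 ^ (k + 5), g6, hu, g6_unit.pow _, ?_, norm_emb_unit g6_unit, hg, ?_, ?_⟩
    · calc g6 ^ k = g6 ^ k * g6 ^ 6 := by rw [g6_pow, mul_one]
        _ = g6 * g6 ^ (k + 5) := by ring
    · rw [map_mul, hyt, hny]; exact hbest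
    · have e3 : 2 * (emb (g6 ^ (k + 5) * t)).re = s.re + s.im := by
        rw [map_mul, e2, g6_inv_re, hre, him, h3']; ring
      rw [e3, hny]
      rcases hb.lt_or_eq with hb1 | hb1
      · left
        have hb2 : (1 : ℝ) ≤ s.im := by exact_mod_cast hb1
        have hle : ‖y‖ ≤ s.re := by
          refine (sq_le_sq₀ hn0 (by linarith)).1 ?_
          rw [hn]; nlinarith
        refine (sq_le_sq₀ (by positivity) (by linarith)).1 ?_
        nlinarith [mul_nonneg (sub_nonneg.2 hb2) (by linarith : (0 : ℝ) ≤ s.re)]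
      · right
        have h0 : (s.im : ℝ) = 0 := by exact_mod_cast hb1.symm
        have hr := hcoord hb1.symm
        have hr' : (0 : ℝ) ≤ s.re := by exact_mod_cast (by omega : 0 ≤ s.re)
        have hyr : ‖y‖ = s.re := by
          rw [← sq_eq_sq₀ hn0 hr', hn, h0]; ring
        refine ⟨by rw [hyr, h0]; linarith, s.re.toNat, ?_⟩
        rw [hyr]
        exact_mod_cast (Int.toNat_of_nonneg (by omega : 0 ≤ s.re)).symm
  · refine ⟨g6 ^ k, g6 ^ (k + 1), g6 ^ 5, hu, g6_unit.pow _, ?_, norm_emb_unit (g6_unit.pow 5),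
      hg5, ?_, ?_⟩
    · calc g6 ^ k = g6 ^ k * g6 ^ 6 := by rw [g6_pow, mul_one]
        _ = g6 ^ 5 * g6 ^ (k + 1) := by ring
    · rw [map_mul, hyt, hny]; exact hbest
    · have e3 : 2 * (emb (g6 ^ (k + 1) * t)).re = s.re - 2 * s.im := by
        rw [map_mul, e1, g6_re, hre, him, h3']; ring
      rw [e3, hny]
      rcases hb.lt_or_eq with hb1 | hb1
      · left
        have hb2 : (s.im : ℝ) ≤ -1 := by exact_mod_cast (by omega : s.im ≤ -1)
        have hle : ‖y‖ ≤ s.re - s.im := by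
          refine (sq_le_sq₀ hn0 (by linarith)).1 ?_
          rw [hn]; nlinarith
        refine (sq_le_sq₀ (by positivity) (by linarith)).1 ?_
        nlinarith [mul_nonneg (by linarith : (0 : ℝ) ≤ -1 - s.im)
          (by linarith : (0 : ℝ) ≤ s.re - s.im)]
      · right
        have h0 : (s.im : ℝ) = 0 := by exact_mod_cast hb1
        have hr := hcoord hb1
        have hr' : (0 : ℝ) ≤ s.re := by exact_mod_cast (by omega : 0 ≤ s.re)
        have hyr : ‖y‖ = s.re := by
          rw [← sq_eq_sq₀ hn0 hr', hn, h0]; ring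
        refine ⟨by rw [hyr, h0]; linarith, s.re.toNat, ?_⟩
        rw [hyr]
        exact_mod_cast (Int.toNat_of_nonneg (by omega : 0 ≤ s.re)).symm

end Pool.Agent.B5.H42
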