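import Pool.Agent.Lib.MP_b5021c_nt.IfaceS2a

/-!
# Row T_BST: best and second best unit, adjacent
-/

set_option autoImplicit false

namespace Pool.Agent.B5.H42

open Pool.Agent.MP_b5021c_nt Pool.Agent.MP_b5021c_nt.Eis

theorem t_bst : BstS := by
  intro z
  obtain ⟨k, -, hk⟩ := Finset.exists_max_image (Finset.range 6)
    (fun k => (emb (g6 ^ k) * z).re) ⟨0, by simp⟩
  have hk' : ∀ n : ℕ, (emb (g6 ^ n) * z).re ≤ (emb (g6 ^ k) * z).re := by
    intro n
    have h1 : g6 ^ n = g6 ^ (n % 6) := by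
      conv_lhs => rw [← Nat.div_add_mod n 6, pow_add, pow_mul, g6_pow, one_pow, one_mul]
    rw [h1]
    exact hk _ (Finset.mem_range.2 (Nat.mod_lt _ (by norm_num)))
  set y : ℂ := emb (g6 ^ k) * z with hy
  have hu : IsUnit (g6 ^ k) := g6_unit.pow k
  have hny : ‖y‖ = ‖z‖ := by rw [hy, norm_mul, norm_emb_unit hu, one_mul]
  have e1 : emb (g6 ^ (k + 1)) * z = emb g6 * y := by
    rw [hy, pow_succ, map_mul]; ring
  have e2 : emb (g6 ^ (k + 5)) * z = emb (g6 ^ 5) * y := by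
    rw [hy, pow_add, map_mul]; ring
  have h1 := hk' (k + 1)
  have h2 := hk' (k + 5)
  rw [e1, g6_re] at h1
  rw [e2, g6_inv_re] at h2
  have hs : 0 < √3 := Real.sqrt_pos.2 (by norm_num)
  have hs2 := sqrt3_sq
  have hre : 0 ≤ y.re := by linarith
  have hn : ‖y‖ ^ 2 = y.re ^ 2 + y.im ^ 2 := by
    rw [← Complex.normSq_eq_norm_sq, Complex.normSq_apply]; ring
  have hb : 3 * y.im ^ 2 ≤ y.re ^ 2 := by
    have a1 : √3 * y.im ≤ y.re := by linarith
    have a2 : -(√3 * y.im) ≤ y.re := by linarith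
    nlinarith
  have hbest : √3 / 2 * ‖y‖ ≤ y.re := by
    have h3 : (√3 / 2 * ‖y‖) ^ 2 ≤ y.re ^ 2 := by
      have : (√3 / 2 * ‖y‖) ^ 2 = 3 / 4 * ‖y‖ ^ 2 := by
        rw [mul_pow, div_pow, Real.sq_sqrt (by norm_num)]; norm_num
      rw [this, hn]; nlinarith
    exact (sq_le_sq₀ (by positivity) hre).1 h3
  have hsn : ‖y‖ ≤ y.re + |y.im| := by
    have := Complex.norm_le_abs_re_add_abs_im y
    rwa [abs_of_nonneg hre] at this
  have h1s : 1 ≤ √3 := by rw [Real.one_le_sqrt]; norm_num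
  have hg : (emb g6).re = 1 / 2 := by
    rw [emb_re]; simp only [g6]; norm_num
  have hg5 : (emb (g6 ^ 5)).re = 1 / 2 := by
    have h : g6 ^ 5 = ⟨0, -1⟩ := by decide
    rw [h, emb_re]; norm_num
  rcases le_total 0 y.im with him | him
  · refine ⟨g6 ^ k, g6 ^ (k + 5), g6, hu, g6_unit.pow _, ?_, norm_emb_unit g6_unit, hg, ?_, ?_⟩
    · calc g6 ^ k = g6 ^ k * g6 ^ 6 := by rw [g6_pow, mul_one]
        _ = g6 * g6 ^ (k + 5) := by ring
    · rw [← hy, ← hny]; exact hbest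
    · rw [e2, g6_inv_re, ← hny]
      rw [abs_of_nonneg him] at hsn
      nlinarith
  · refine ⟨g6 ^ k, g6 ^ (k + 1), g6 ^ 5, hu, g6_unit.pow _, ?_, norm_emb_unit (g6_unit.pow 5),
      hg5, ?_, ?_⟩
    · calc g6 ^ k = g6 ^ k * g6 ^ 6 := by rw [g6_pow, mul_one]
        _ = g6 ^ 5 * g6 ^ (k + 1) := by ring
    · rw [← hy, ← hny]; exact hbest
    · rw [e1, g6_re, ← hny]
      rw [abs_of_nonpos him] at hsn
      nlinarith

end Pool.Agent.B5.H42
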