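import Pool.Agent.Lib.MP_b5021c_nt.IfaceS1

/-!
# Board b5, row S_BPR: small non-pure factors at both loads are impossible
-/

namespace Pool.Agent.B5.H42

open scoped LaurentPolynomial

section

variable {O : Type} [CommRing O] [IsDomain O] [IsPrincipalIdealRing O] [Coef O]
  {P L : Type} [Fintype P] [DecidableEq P] [AddCommGroup L]

/-- The ray of a small non-pure factor is an exponent of it. -/
theorem spt_mem {phi : L →+ (P → ℤ)} {S : L} {i0 : P} {n : ℕ}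
    {G : Fin n → AO O (Ker (co phi i0))} {l : Fin n} {b : Ker (co phi i0)} {j : P} {e : (RO O)ˣ}
    (h : Spt phi S i0 G l b j e) : b ∈ supp (G l) := by
  have hb : b ≠ 0 := by
    intro h0
    have h1 := h.bj
    rw [h0] at h1
    simp at h1
  change (G l).coeff b ≠ 0
  rw [h.eq]
  have h2 : (cst ((G l).coeff 0) *
      (1 - AddMonoidAlgebra.single b ((e⁻¹ : (RO O)ˣ) : RO O)) : AO O (Ker (co phi i0))).coeff b =
      -((G l).coeff 0 * ((e⁻¹ : (RO O)ˣ) : RO O)) := by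
    rw [mul_sub, mul_one, cst, AddMonoidAlgebra.single_mul_single, zero_add]
    rw [AddMonoidAlgebra.coeff_sub, Finsupp.sub_apply, AddMonoidAlgebra.coeff_single,
      AddMonoidAlgebra.coeff_single, Finsupp.single_eq_same, Finsupp.single_eq_of_ne hb, zero_sub]
  rw [h2]
  exact neg_ne_zero.2 (mul_ne_zero h.u0.ne_zero (Units.ne_zero _))

theorem spt_bin {phi : L →+ (P → ℤ)} {D : AO O L} {S : L} {i0 : P} {eta : (RO O)ˣ}
    {h : co phi i0 S = 1} {c : RO O} {n : ℕ} {G : Fin n → AO O (Ker (co phi i0))}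
    (fd : FD phi D S i0 eta h c n G) {l : Fin n} {b : Ker (co phi i0)} {j : P} {e : (RO O)ˣ}
    (hs : Spt phi S i0 G l b j e) (j' : P) (hj' : j' ∈ OO phi S) :
    phi (b : L) j' = 0 ∨ phi (b : L) j' = 1 :=
  (fd.ww l b (spt_mem hs)).1 j' hj'

end

theorem s_bpr (hSm : SmallS) (hSp : SpjS) (hD : BpdS) (hE : BpeS) (hR : RkS) : BprS := by
  intro O _ _ _ _ P L _ _ _ _ _ phi D S i0 eta₁ eta₂ h c₁ c₂ n₁ n₂ G₁ G₂ f₁ f₂ hne h3 r₁ r₂ s₁ s₂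
  by_contra hc
  push Not at hc
  obtain ⟨k1, k2⟩ := hc
  obtain ⟨l₁, hl₁⟩ := k1
  obtain ⟨l₂, hl₂⟩ := k2
  have m₁ : ¬ 1 < M ((G₁ l₁).coeff 0) ∧ ¬ Pure phi S i0 (G₁ l₁) := by
    classical
    simpa [snp] using hl₁
  have m₂ : ¬ 1 < M ((G₂ l₂).coeff 0) ∧ ¬ Pure phi S i0 (G₂ l₂) := by
    classical
    simpa [snp] using hl₂
  obtain ⟨b₁, j₁, e₁, t₁⟩ := (hSm O P L phi D S i0 eta₁ h c₁ n₁ G₁ f₁ l₁ m₁.1).2.2 m₁.2
  obtain ⟨b₂, j₂, e₂, t₂⟩ := (hSm O P L phi D S i0 eta₂ h c₂ n₂ G₂ f₂ l₂ m₂.1).2.2 m₂.2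
  -- no port separates the two rays
  have q1 : ∀ j ∈ OO phi S, phi (b₁ : L) j = 1 → phi (b₂ : L) j = 1 := by
    intro j hj hb
    rcases spt_bin f₂ t₂ j hj with h0 | h1
    · have := hD O P L phi D S i0 eta₂ eta₁ h c₂ c₁ n₂ n₁ G₂ G₁ f₂ f₁ hne.symm l₂ l₁ b₂ b₁ j₂ j₁
        e₂ e₁ t₂ t₁ ⟨j, hj, hb, h0⟩
      omega
    · exact h1
  have q2 : phi (b₂ : L) j₁ = 1 := q1 j₁ t₁.jO t₁.bj
  have t₂' := hSp O P L phi D S i0 eta₂ h c₂ n₂ G₂ f₂ l₂ b₂ j₂ e₂ t₂ j₁ t₁.jO q2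
  have q3 := hE O P L phi D S i0 eta₁ eta₂ h c₁ c₂ n₁ n₂ G₁ G₂ f₁ f₂ hne l₁ l₂ b₁ b₂ j₁ e₁ e₂
    t₁ t₂'
  have hk0 : co phi i0 ≠ 0 := by
    intro h0
    rw [h0] at h
    simp at h
  have q4 := (hR L L).1 (co phi i0) hk0
  rcases q3 with q3 | q3 <;> omega

end Pool.Agent.B5.H42
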